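import Mathlib

set_option autoImplicit false

/-!
# Finitely generated fields of characteristic zero embed into `ℚ_p` for infinitely many `p`
-/

namespace Pool.Agent.DMLR

open Polynomial

/-- The field `L` embeds into `ℚ_p` for infinitely many primes `p`. -/
def ManyPadic (L : Type) [Field L] : Prop :=
  ∀ B : ℕ, ∃ p : ℕ, B ≤ p ∧ ∃ _ : Fact p.Prime, Nonempty (L →+* ℚ_[p])

/-- A nonconstant integer polynomial has roots modulo infinitely many primes. -/
theorem schur_prime (g : ℤ[X]) (hg : 0 < g.natDegree) (B : ℕ) :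
    ∃ p : ℕ, B ≤ p ∧ p.Prime ∧ ∃ b : ℤ, (p : ℤ) ∣ g.eval b := by
  by_cases h0 : g.eval 0 = 0
  · obtain ⟨p, hp, hp'⟩ := Nat.exists_infinite_primes B
    exact ⟨p, hp, hp', 0, by rw [h0]; exact dvd_zero _⟩
  set c := g.eval 0 with hc
  set M : ℤ := (B.factorial : ℤ) with hM
  have hM0 : M ≠ 0 := by
    rw [hM]
    exact_mod_cast (Nat.factorial_pos B).ne'
  set h : ℤ[X] := g.comp (C (c * M) * X) with hh
  have hdeg : h.natDegree = g.natDegree := by
    rw [hh, natDegree_comp, natDegree_C_mul_X _ (mul_ne_zero h0 hM0), mul_one]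
  have hne : ∀ a : ℤ, h - C a ≠ 0 := by
    intro a ha
    have h1 : h = C a := sub_eq_zero.mp ha
    rw [h1, natDegree_C] at hdeg
    omega
  obtain ⟨x, hx⟩ : ∃ x : ℤ, ((h - C c) * (h - C (-c))).eval x ≠ 0 := by
    by_contra hcon
    push Not at hcon
    have h1 : (h - C c) * (h - C (-c)) = 0 := Polynomial.funext fun x => by
      rw [hcon x, eval_zero]
    rcases mul_eq_zero.mp h1 with h2 | h2
    · exact hne _ h2
    · exact hne _ h2
  have hev : h.eval x = g.eval (c * M * x) := by
    rw [hh, eval_comp, eval_mul, eval_C, eval_X]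
  rw [eval_mul, eval_sub, eval_sub, eval_C, eval_C, hev] at hx
  obtain ⟨k, hk⟩ := sub_dvd_eval_sub (c * M * x) 0 g
  rw [sub_zero, ← hc] at hk
  set y : ℤ := 1 + M * x * k with hy
  have hgy : g.eval (c * M * x) = c * y := by
    rw [hy]
    linear_combination hk
  rw [hgy] at hx
  have hy1 : y.natAbs ≠ 1 := by
    intro h1
    apply hx
    rcases Int.natAbs_eq y with h2 | h2
    · rw [h2, h1]
      push_cast
      ring
    · rw [h2, h1]
      push_cast
      ring
  obtain ⟨p, hp, hpy⟩ := Nat.exists_prime_and_dvd hy1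
  have hpy' : (p : ℤ) ∣ y := Int.natCast_dvd.mpr hpy
  refine ⟨p, ?_, hp, c * M * x, by rw [hgy]; exact dvd_mul_of_dvd_right hpy' _⟩
  by_contra hlt
  push Not at hlt
  have h1 : (p : ℤ) ∣ M := by
    rw [hM]
    exact_mod_cast (Nat.Prime.dvd_factorial hp).mpr hlt.le
  have h2 : (p : ℤ) ∣ 1 := by
    have h3 : (1 : ℤ) = y - M * x * k := by rw [hy]; ring
    rw [h3]
    exact dvd_sub hpy' (dvd_mul_of_dvd_left (dvd_mul_of_dvd_left h1 _) _)
  have h3 : p ∣ 1 := by exact_mod_cast h2
  exact hp.one_lt.ne' (Nat.dvd_one.mp h3)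

/-- Generic points of residue discs. -/
theorem exists_generic {p : ℕ} [hp : Fact p.Prime] {ι : Type} [Fintype ι] (a : ι → ℤ_[p]) :
    ∃ τ : ι → ℤ_[p], (∀ i, ‖τ i - a i‖ < 1) ∧ ∀ F : MvPolynomial ι ℤ, F ≠ 0 →
      MvPolynomial.eval τ (MvPolynomial.map (Int.castRingHom ℤ_[p]) F) ≠ 0 := by
  classical
  have hcount : Countable (MvPolynomial ι ℤ) := by
    rw [← Cardinal.mk_le_aleph0_iff]
    refine (MvPolynomial.cardinalMk_le_max (σ := ι) (R := ℤ)).trans ?_
    simp
  set U : {F : MvPolynomial ι ℤ // F ≠ 0} → Set (ι → ℤ_[p]) := fun F =>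
    {τ | MvPolynomial.eval τ (MvPolynomial.map (Int.castRingHom ℤ_[p]) F.1) ≠ 0} with hU
  have hcont : ∀ F : MvPolynomial ι ℤ_[p], Continuous fun τ : ι → ℤ_[p] =>
      MvPolynomial.eval τ F := fun F => MvPolynomial.continuous_eval F
  have hopen : ∀ F, IsOpen (U F) := by
    intro F
    exact isOpen_ne.preimage (hcont _)
  have hdense : ∀ F, Dense (U F) := by
    intro F
    rw [Metric.dense_iff]
    intro x r hr
    by_contra hcon
    have hz : ∀ τ ∈ Metric.ball x r,
        MvPolynomial.eval τ (MvPolynomial.map (Int.castRingHom ℤ_[p]) F.1) = 0 := by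
      intro τ hτ
      by_contra h1
      exact hcon ⟨τ, hτ, h1⟩
    -- infinite boxes
    obtain ⟨n₀, hn₀⟩ : ∃ n₀ : ℕ, ∀ n, n₀ ≤ n → ‖((p : ℤ_[p]) ^ n)‖ < r := by
      have h1 : Filter.Tendsto (fun n : ℕ => ‖((p : ℤ_[p]) ^ n)‖) Filter.atTop (nhds 0) := by
        simp only [norm_pow, PadicInt.norm_p]
        exact tendsto_pow_atTop_nhds_zero_of_lt_one (by positivity)
          (inv_lt_one_of_one_lt₀ (by exact_mod_cast hp.out.one_lt))
      exact (h1.eventually (gt_mem_nhds hr)).exists_forall_of_atTop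
    have hinf : ∀ i, ({y : ℤ_[p] | ‖y - x i‖ < r}).Infinite := by
      intro i
      refine Set.infinite_of_injective_forall_mem (f := fun n : ℕ => x i + (p : ℤ_[p]) ^ (n + n₀))
        ?_ ?_
      · intro n m hnm
        have h1 : (p : ℤ_[p]) ^ (n + n₀) = (p : ℤ_[p]) ^ (m + n₀) := add_left_cancel hnm
        have h2 : ((p ^ (n + n₀) : ℕ) : ℤ_[p]) = ((p ^ (m + n₀) : ℕ) : ℤ_[p]) := by
          push_cast
          exact h1
        have h3 := Nat.pow_right_injective hp.out.two_le (Nat.cast_injective h2)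
        omega
      · intro n
        show ‖x i + (p : ℤ_[p]) ^ (n + n₀) - x i‖ < r
        rw [add_sub_cancel_left]
        exact hn₀ _ (Nat.le_add_left _ _)
    have h0 : MvPolynomial.map (Int.castRingHom ℤ_[p]) F.1 = 0 := by
      refine MvPolynomial.funext_set (fun i => {y : ℤ_[p] | ‖y - x i‖ < r}) hinf fun τ hτ => ?_
      rw [map_zero]
      refine hz τ ?_
      rw [Metric.mem_ball, dist_pi_lt_iff hr]
      intro i
      rw [dist_eq_norm]
      exact hτ i (Set.mem_univ i)
    apply F.2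
    refine MvPolynomial.map_injective _ (RingHom.injective_int (Int.castRingHom ℤ_[p])) ?_
    rw [h0, map_zero]
  have hD := dense_iInter_of_isOpen hopen hdense
  rw [Metric.dense_iff] at hD
  obtain ⟨τ, hτ, hτ'⟩ := hD a 1 one_pos
  refine ⟨τ, fun i => ?_, fun F hF => ?_⟩
  · rw [Metric.mem_ball, dist_pi_lt_iff one_pos] at hτ
    rw [← dist_eq_norm]
    exact hτ i
  · exact Set.mem_iInter.mp hτ' ⟨F, hF⟩

theorem toZMod_eq_zero_iff_norm {p : ℕ} [hp : Fact p.Prime] (x : ℤ_[p]) :
    PadicInt.toZMod x = 0 ↔ ‖x‖ < 1 := by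
  rw [← RingHom.mem_ker, PadicInt.ker_toZMod, PadicInt.maximalIdeal_eq_span_p,
    Ideal.mem_span_singleton, PadicInt.norm_lt_one_iff_dvd]

/-- The field `L` embeds into `ℚ_p` for infinitely many primes `p` such that the image of any
given finite set is integral. -/
def ManyPadicInt (L : Type) [Field L] : Prop :=
  ∀ (E : Finset L) (B : ℕ), ∃ p : ℕ, B ≤ p ∧ ∃ _ : Fact p.Prime, ∃ τ : L →+* ℚ_[p],
    ∀ x ∈ E, ‖τ x‖ ≤ 1

theorem ManyPadicInt.manyPadic {L : Type} [Field L] (h : ManyPadicInt L) : ManyPadic L := by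
  intro B
  obtain ⟨p, hp, hF, τ, -⟩ := h ∅ B
  exact ⟨p, hp, hF, ⟨τ⟩⟩

/-- Finite extensions of purely transcendental extensions of `ℚ`. -/
theorem manyPadicInt_of_finite {ι : Type} [Fintype ι] {K : Type} [Field K]
    [Algebra (FractionRing (MvPolynomial ι ℤ)) K]
    [FiniteDimensional (FractionRing (MvPolynomial ι ℤ)) K] : ManyPadicInt K := by
  classical
  intro E B
  set A := MvPolynomial ι ℤ with hA
  set F := FractionRing A with hF
  have hAF : Function.Injective (algebraMap A F) := IsFractionRing.injective A F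
  have hchar : CharZero F := charZero_of_injective_algebraMap hAF
  set pb := Field.powerBasisOfFiniteOfSeparable F K with hpb
  set m := minpoly F pb.gen with hm
  have hint : IsIntegral F pb.gen := IsIntegral.of_finite F pb.gen
  have hmon : m.Monic := minpoly.monic hint
  have hdeg : 0 < m.natDegree := minpoly.natDegree_pos hint
  have hsep : m.Separable := Algebra.IsSeparable.isSeparable F pb.gen
  obtain ⟨u, v, huv⟩ := hsep
  -- normalisation
  have hnorm : ∀ q : F[X], ∃ b : A, b ≠ 0 ∧ ∃ Q : A[X],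
      Q.map (algebraMap A F) = C (algebraMap A F b) * q := by
    intro q
    obtain ⟨b, hb0, hb⟩ := IsLocalization.integerNormalization_spec (nonZeroDivisors A) q
    refine ⟨b, nonZeroDivisors.ne_zero hb0, _, hb.trans ?_⟩
    rw [← algebraMap_smul F (b : A) q, Polynomial.smul_eq_C_mul]
  obtain ⟨bm, hbm, G, hG⟩ := hnorm m
  obtain ⟨bu, hbu, U, hU⟩ := hnorm u
  obtain ⟨bv, hbv, V, hV⟩ := hnorm v
  have hrel : C bv * U * G + C bu * V * derivative G = C (bu * bm * bv) := by
    apply Polynomial.map_injective (algebraMap A F) hAF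
    rw [Polynomial.map_add, Polynomial.map_mul, Polynomial.map_mul, Polynomial.map_mul,
      Polynomial.map_mul, ← Polynomial.derivative_map, hG, hU, hV, Polynomial.map_C,
      Polynomial.map_C, Polynomial.map_C, Polynomial.derivative_C_mul]
    have e : C (algebraMap A F (bu * bm * bv)) =
        C (algebraMap A F bu) * C (algebraMap A F bm) * C (algebraMap A F bv) := by
      simp only [map_mul]
    rw [e]
    linear_combination (C (algebraMap A F bu) * C (algebraMap A F bm) *
      C (algebraMap A F bv)) * huv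
  set D : A := bu * bm * bv with hD
  have hD0 : D ≠ 0 := mul_ne_zero (mul_ne_zero hbu hbm) hbv
  -- denominators of the elements of `E`
  let algAK : Algebra A K := ((algebraMap F K).comp (algebraMap A F)).toAlgebra
  have hAK : algebraMap A K = (algebraMap F K).comp (algebraMap A F) := rfl
  have hst : IsScalarTower A F K := IsScalarTower.of_algebraMap_eq fun _ => rfl
  have hden : ∀ x : K, ∃ y : A, y ≠ 0 ∧ IsIntegral A (y • x) := by
    intro x
    have h1 : IsAlgebraic A x := (IsFractionRing.isAlgebraic_iff A F K).mpr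
      (IsIntegral.of_finite F x).isAlgebraic
    exact h1.exists_integral_multiple
  choose dn hdn0 hdn using hden
  set DE : A := ∏ x ∈ E, dn x with hDE
  have hDE0 : DE ≠ 0 := Finset.prod_ne_zero_iff.mpr fun x _ => hdn0 x
  obtain ⟨a, haa⟩ : ∃ a : ι → ℤ, MvPolynomial.eval a (D * DE) ≠ 0 := by
    by_contra hcon
    push Not at hcon
    exact mul_ne_zero hD0 hDE0 (MvPolynomial.funext fun a => by rw [hcon a, map_zero])
  have ha : MvPolynomial.eval a D ≠ 0 := by
    intro h0
    apply haa
    rw [map_mul, h0, zero_mul]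
  have hbma : MvPolynomial.eval a bm ≠ 0 := by
    intro h0
    apply ha
    rw [hD, map_mul, map_mul, h0, mul_zero, zero_mul]
  -- the specialised polynomial
  have hGc : G.coeff m.natDegree = bm := by
    apply hAF
    have h1 := congrArg (fun q => coeff q m.natDegree) hG
    simp only [coeff_map, coeff_C_mul] at h1
    rw [h1, Polynomial.Monic.coeff_natDegree hmon, mul_one]
  set g : ℤ[X] := G.map (MvPolynomial.eval a) with hg
  have hgdeg : 0 < g.natDegree := by
    refine lt_of_lt_of_le hdeg (le_natDegree_of_ne_zero ?_)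
    rw [hg, coeff_map, hGc]
    exact hbma
  obtain ⟨p, hpB, hp, b, hb⟩ := schur_prime g hgdeg
    (B + (MvPolynomial.eval a (D * DE)).natAbs + 1)
  have hFact : Fact p.Prime := ⟨hp⟩
  refine ⟨p, by omega, hFact, ?_⟩
  have hpDE : ((MvPolynomial.eval a (D * DE) : ℤ) : ZMod p) ≠ 0 := by
    rw [Ne, ZMod.intCast_zmod_eq_zero_iff_dvd]
    intro h1
    have h2 := Int.natAbs_dvd_natAbs.mpr h1
    rw [Int.natAbs_natCast] at h2
    have h3 := Nat.le_of_dvd (Int.natAbs_pos.mpr haa) h2
    omega
  have hpD : ((MvPolynomial.eval a D : ℤ) : ZMod p) ≠ 0 := by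
    intro h0
    apply hpDE
    rw [map_mul, Int.cast_mul, h0, zero_mul]
  obtain ⟨τ, hτ1, hτ2⟩ := exists_generic (p := p) (fun i => ((a i : ℤ) : ℤ_[p]))
  set φ : A →+* ℤ_[p] := MvPolynomial.eval₂Hom (Int.castRingHom ℤ_[p]) τ with hφ
  have hφinj : ∀ Q : A, Q ≠ 0 → φ Q ≠ 0 := by
    intro Q hQ
    have h1 := hτ2 Q hQ
    rw [MvPolynomial.eval_map] at h1
    exact h1
  have hred : (PadicInt.toZMod (p := p)).comp φ =
      (Int.castRingHom (ZMod p)).comp (MvPolynomial.eval a) := by
    refine MvPolynomial.ringHom_ext (fun r => ?_) fun i => ?_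
    · simp [hφ]
    · simp only [hφ, RingHom.comp_apply, MvPolynomial.coe_eval₂Hom, MvPolynomial.eval₂_X,
        MvPolynomial.eval_X, eq_intCast]
      have h1 : PadicInt.toZMod (τ i - ((a i : ℤ) : ℤ_[p])) = 0 :=
        (toZMod_eq_zero_iff_norm _).mpr (hτ1 i)
      rw [map_sub, map_intCast, sub_eq_zero] at h1
      exact h1
  have hredev : ∀ Q : A[X], PadicInt.toZMod ((Q.map φ).eval ((b : ℤ) : ℤ_[p])) =
      (((Q.map (MvPolynomial.eval a)).eval b : ℤ) : ZMod p) := by
    intro Q
    have h1 : PadicInt.toZMod ((Q.map φ).eval ((b : ℤ) : ℤ_[p])) =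
        (Q.map ((PadicInt.toZMod (p := p)).comp φ)).eval ((b : ℤ) : ZMod p) := by
      rw [← Polynomial.map_map, ← map_intCast (PadicInt.toZMod (p := p)), Polynomial.eval_map_apply]
    rw [h1, hred, ← Polynomial.map_map, ← eq_intCast (Int.castRingHom (ZMod p)) b,
      Polynomial.eval_map_apply, eq_intCast]
  set Gt : ℤ_[p][X] := G.map φ with hGt
  have hz0 : PadicInt.toZMod (Gt.eval ((b : ℤ) : ℤ_[p])) = 0 := by
    rw [hGt, hredev, ZMod.intCast_zmod_eq_zero_iff_dvd]
    exact hb
  have hz1 : PadicInt.toZMod ((derivative Gt).eval ((b : ℤ) : ℤ_[p])) ≠ 0 := by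
    intro h0
    have h1 := congrArg (fun Q => PadicInt.toZMod ((Polynomial.map φ Q).eval ((b : ℤ) : ℤ_[p]))) hrel
    simp only [Polynomial.map_add, Polynomial.map_mul, eval_add, eval_mul, map_add, map_mul,
      ← Polynomial.derivative_map, ← hGt, hz0, h0, mul_zero, add_zero] at h1
    rw [Polynomial.map_C, eval_C] at h1
    have h2 : PadicInt.toZMod (φ D) = ((MvPolynomial.eval a D : ℤ) : ZMod p) :=
      congrArg (fun f : A →+* ZMod p => f D) hred
    rw [h2] at h1
    exact hpD h1.symm
  have hn0 : ‖Gt.eval ((b : ℤ) : ℤ_[p])‖ < 1 := (toZMod_eq_zero_iff_norm _).mp hz0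
  have hn1 : ‖(derivative Gt).eval ((b : ℤ) : ℤ_[p])‖ = 1 := by
    refine le_antisymm (PadicInt.norm_le_one _) ?_
    by_contra hcon
    exact hz1 ((toZMod_eq_zero_iff_norm _).mpr (not_le.mp hcon))
  obtain ⟨z, hz, -⟩ := hensels_lemma (F := Gt) (a := ((b : ℤ) : ℤ_[p])) (by
    rw [Polynomial.coe_aeval_eq_eval, hn1, one_pow]
    exact hn0)
  rw [Polynomial.coe_aeval_eq_eval] at hz
  -- the embedding
  set κ : ℤ_[p] →+* ℚ_[p] := PadicInt.Coe.ringHom with hκ
  have hκ0 : ∀ x : ℤ_[p], κ x = 0 → x = 0 := fun x hx => Subtype.ext hx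
  have hinj : Function.Injective (κ.comp φ) := by
    rw [injective_iff_map_eq_zero]
    intro Q hQ
    by_contra h0
    exact hφinj Q h0 (hκ0 _ hQ)
  set lam : F →+* ℚ_[p] := IsFractionRing.lift hinj with hlam
  have hlam1 : lam.comp (algebraMap A F) = κ.comp φ := by
    ext x
    · simp
    · simp [hlam]
  let _ : Algebra F ℚ_[p] := lam.toAlgebra
  have hroot : aeval (κ z) m = 0 := by
    have h1 : eval₂ lam (κ z) (G.map (algebraMap A F)) = 0 := by
      rw [eval₂_map, hlam1]
      have h2 : eval₂ (κ.comp φ) (κ z) G = κ (Gt.eval z) := by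
        rw [hGt, eval_map, hom_eval₂]
      rw [h2, hz, map_zero]
    rw [hG, eval₂_mul, eval₂_C] at h1
    have h2 : lam (algebraMap A F bm) ≠ 0 := by
      rw [← RingHom.comp_apply, hlam1]
      intro h3
      exact hφinj bm hbm (hκ0 _ h3)
    exact (mul_eq_zero.mp h1).resolve_left h2
  set τK : K →+* ℚ_[p] := (pb.lift (κ z) hroot).toRingHom with hτK
  have hτA : ∀ Q : A, τK (algebraMap A K Q) = κ (φ Q) := by
    intro Q
    have h1 : τK (algebraMap F K (algebraMap A F Q)) = lam (algebraMap A F Q) :=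
      (pb.lift (κ z) hroot).commutes (algebraMap A F Q)
    rw [hAK, RingHom.comp_apply, h1, ← RingHom.comp_apply, hlam1, RingHom.comp_apply]
  refine ⟨τK, fun x hx => ?_⟩
  have hint2 : IsIntegral ℤ_[p] (τK (dn x • x)) := by
    exact IsIntegral.map_of_comp_eq φ τK (RingHom.ext fun Q => (hτA Q).symm) (hdn x)
  obtain ⟨y, hy⟩ := IsIntegrallyClosed.isIntegral_iff.mp hint2
  have hy1 : ‖τK (dn x • x)‖ ≤ 1 := by
    rw [← hy]
    exact PadicInt.norm_le_one y
  have hunit : ‖κ (φ (dn x))‖ = 1 := by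
    refine le_antisymm (PadicInt.norm_le_one (φ (dn x))) ?_
    by_contra hcon
    have h1 : PadicInt.toZMod (φ (dn x)) = 0 :=
      (toZMod_eq_zero_iff_norm _).mpr (not_le.mp hcon)
    have h2 : PadicInt.toZMod (φ (dn x)) = ((MvPolynomial.eval a (dn x) : ℤ) : ZMod p) :=
      congrArg (fun f : A →+* ZMod p => f (dn x)) hred
    rw [h2] at h1
    apply hpDE
    have h3 : dn x ∣ DE := Finset.dvd_prod_of_mem dn hx
    obtain ⟨w, hw⟩ := h3
    have h4 : D * DE = dn x * (D * w) := by
      rw [hw]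
      ring
    rw [h4, map_mul, Int.cast_mul, h1, zero_mul]
  rw [Algebra.smul_def, map_mul, hτA, norm_mul, hunit, one_mul] at hy1
  exact hy1

/-- **Cassels' embedding theorem.** -/
theorem manyPadicInt_of_adjoin {K : Type} [Field K] [CharZero K] (S : Finset K)
    (hS : IntermediateField.adjoin ℚ (S : Set K) = ⊤) : ManyPadicInt K := by
  classical
  have hind : ∀ (p : K → Prop), (∀ x ∈ S, p x) → (∀ q : ℚ, p (q : K)) →
      (∀ x y, p x → p y → p (x + y)) → (∀ x, p x → p x⁻¹) → (∀ x y, p x → p y → p (x * y)) →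
      ∀ x, p x := by
    intro p h1 h2 h3 h4 h5 x
    have hx : x ∈ IntermediateField.adjoin ℚ (S : Set K) := by
      rw [hS]
      exact IntermediateField.mem_top
    refine IntermediateField.adjoin_induction ℚ (p := fun x _ => p x) ?_ ?_ ?_ ?_ ?_ hx
    · exact fun x hx => h1 x hx
    · intro q
      rw [eq_ratCast]
      exact h2 q
    · exact fun x y _ _ hx hy => h3 x y hx hy
    · exact fun x _ hx => h4 x hx
    · exact fun x y _ _ hx hy => h5 x y hx hy
  have halg : Algebra.IsAlgebraic (Algebra.adjoin ℤ (S : Set K)) K := by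
    constructor
    refine hind (fun x => IsAlgebraic (Algebra.adjoin ℤ (S : Set K)) x) ?_ ?_ ?_ ?_ ?_
    · intro x hx
      exact isAlgebraic_algebraMap
        (⟨x, Algebra.subset_adjoin hx⟩ : Algebra.adjoin ℤ (S : Set K))
    · intro q
      have h1 : ∀ n : ℤ, IsAlgebraic (Algebra.adjoin ℤ (S : Set K)) (n : K) := by
        intro n
        have h2 := isAlgebraic_algebraMap (A := K) ((n : Algebra.adjoin ℤ (S : Set K)))
        rw [map_intCast] at h2
        exact h2
      rw [Rat.cast_def, div_eq_mul_inv]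
      refine (h1 _).mul (IsAlgebraic.inv ?_)
      have h2 := h1 (q.den : ℤ)
      rw [Int.cast_natCast] at h2
      exact h2
    · exact fun x y hx hy => hx.add hy
    · exact fun x hx => hx.inv
    · exact fun x y hx hy => hx.mul hy
  obtain ⟨T, hTS, hT⟩ := exists_isTranscendenceBasis_subset (R := ℤ) (S : Set K)
  have hTfin : T.Finite := S.finite_toSet.subset hTS
  have : Fintype T := hTfin.fintype
  have hj : Function.Injective
      ((MvPolynomial.aeval (Subtype.val : T → K) : MvPolynomial T ℤ →ₐ[ℤ] K) :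
        MvPolynomial T ℤ →+* K) := hT.1
  set lam : FractionRing (MvPolynomial T ℤ) →+* K := IsFractionRing.lift hj with hlam
  have hlam1 : ∀ Q : MvPolynomial T ℤ,
      lam (algebraMap (MvPolynomial T ℤ) (FractionRing (MvPolynomial T ℤ)) Q) =
        MvPolynomial.aeval (Subtype.val : T → K) Q := fun Q => by
    rw [hlam, IsFractionRing.lift_algebraMap]
    rfl
  let _ : Algebra (FractionRing (MvPolynomial T ℤ)) K := lam.toAlgebra
  have halg2 : Algebra.IsAlgebraic (FractionRing (MvPolynomial T ℤ)) K := by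
    constructor
    intro x
    have h1 : IsAlgebraic (Algebra.adjoin ℤ (Set.range (Subtype.val : T → K))) x :=
      hT.isAlgebraic.isAlgebraic x
    set e := hT.1.aevalEquiv with he
    refine IsAlgebraic.ringHom_of_comp_eq
      ((algebraMap (MvPolynomial T ℤ) (FractionRing (MvPolynomial T ℤ))).comp
        (e.symm : _ →+* MvPolynomial T ℤ)) (RingHom.id K) h1 ?_ ?_
    · exact (IsFractionRing.injective (MvPolynomial T ℤ) _).comp e.symm.injective
    · ext z
      show lam (algebraMap _ _ (e.symm z)) = (z : K)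
      rw [hlam1]
      have h2 := hT.1.algebraMap_aevalEquiv (e.symm z)
      rw [← he, e.apply_symm_apply] at h2
      exact h2.symm
  have htop : IntermediateField.adjoin (FractionRing (MvPolynomial T ℤ)) (S : Set K) = ⊤ := by
    rw [eq_top_iff]
    intro x _
    refine hind (fun x => x ∈ IntermediateField.adjoin (FractionRing (MvPolynomial T ℤ))
      (S : Set K)) ?_ ?_ ?_ ?_ ?_ x
    · exact fun x hx => IntermediateField.subset_adjoin _ _ hx
    · exact fun q => SubfieldClass.ratCast_mem _ q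
    · exact fun x y hx hy => add_mem hx hy
    · exact fun x hx => inv_mem hx
    · exact fun x y hx hy => mul_mem hx hy
  have hfd1 : FiniteDimensional (FractionRing (MvPolynomial T ℤ))
      (IntermediateField.adjoin (FractionRing (MvPolynomial T ℤ)) (S : Set K)) :=
    IntermediateField.finiteDimensional_adjoin fun x _ =>
      (Algebra.IsAlgebraic.isAlgebraic x).isIntegral
  rw [htop] at hfd1
  have hfd : FiniteDimensional (FractionRing (MvPolynomial T ℤ)) K :=
    Module.Finite.equiv (IntermediateField.topEquiv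
      (F := FractionRing (MvPolynomial T ℤ)) (E := K)).toLinearEquiv
  exact manyPadicInt_of_finite (ι := T)

/-- Finitely generated subfields of `ℂ`. -/
theorem manyPadicInt_of_fg {K : IntermediateField ℚ ℂ} (hK : K.FG) : ManyPadicInt K := by
  have h1 : Algebra.EssFiniteType ℚ K := IntermediateField.essFiniteType_iff.mpr hK
  obtain ⟨S, hS⟩ := IntermediateField.fg_top_iff.mpr h1
  exact manyPadicInt_of_adjoin S hS

theorem manyPadic_of_fg {K : IntermediateField ℚ ℂ} (hK : K.FG) : ManyPadic K :=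
  (manyPadicInt_of_fg hK).manyPadic

end Pool.Agent.DMLR
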